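import Pool.Agent.H792.Gen.Frame

/-!
# Rigid cubic forms are open and dense
-/

set_option autoImplicit false

open scoped BigOperators ContDiff Topology
open Filter Set

namespace Pool.Agent.H792.Gen

theorem IsCub.add {m : ℕ} {a b : Fin m → Fin m → Fin m → ℝ} (ha : IsCub a) (hb : IsCub b) :
    IsCub (a + b) := by
  obtain ⟨h1, h2⟩ := ha
  obtain ⟨h3, h4⟩ := hb
  exact ⟨fun i j k => by simp only [Pi.add_apply]; rw [h1, h3],
    fun i j k => by simp only [Pi.add_apply]; rw [h2, h4]⟩

theorem IsCub.zero {m : ℕ} : IsCub (0 : Fin m → Fin m → Fin m → ℝ) :=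
  ⟨fun _ _ _ => rfl, fun _ _ _ => rfl⟩

theorem IsCub.smul {m : ℕ} (t : ℝ) {a : Fin m → Fin m → Fin m → ℝ} (ha : IsCub a) :
    IsCub (t • a) := by
  obtain ⟨h1, h2⟩ := ha
  exact ⟨fun i j k => by simp only [Pi.smul_apply]; rw [h1],
    fun i j k => by simp only [Pi.smul_apply]; rw [h2]⟩

/-- the space of quartic forms on `ℝ^m` -/
def Qua (m : ℕ) : Submodule ℝ (Fin m → Fin m → Fin m → Fin m → ℝ) where
  carrier := {b | (∀ i j k l, b i j k l = b j i k l) ∧ (∀ i j k l, b i j k l = b i k j l) ∧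
    ∀ i j k l, b i j k l = b i j l k}
  add_mem' := by
    rintro a b ⟨h1, h2, h3⟩ ⟨h4, h5, h6⟩
    exact ⟨fun i j k l => by simp only [Pi.add_apply]; rw [h1, h4],
      fun i j k l => by simp only [Pi.add_apply]; rw [h2, h5],
      fun i j k l => by simp only [Pi.add_apply]; rw [h3, h6]⟩
  zero_mem' := ⟨fun _ _ _ _ => rfl, fun _ _ _ _ => rfl, fun _ _ _ _ => rfl⟩
  smul_mem' := by
    rintro t a ⟨h1, h2, h3⟩
    exact ⟨fun i j k l => by simp only [Pi.smul_apply]; rw [h1],
      fun i j k l => by simp only [Pi.smul_apply]; rw [h2],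
      fun i j k l => by simp only [Pi.smul_apply]; rw [h3]⟩

/-- the bilinear operation in the definition of rigidity -/
def op (m : ℕ) : (Fin m → Fin m → Fin m → ℝ) →ₗ[ℝ] (Fin m → Fin m → Fin m → Fin m → ℝ) →ₗ[ℝ]
    (Fin m → Fin m → Fin m → Fin m → Fin m → ℝ) :=
  LinearMap.mk₂ ℝ (fun c b e a q p r => ∑ i, (c a p i * b e q r i - c a r i * b e q p i
      - c q p i * b e a r i + c q r i * b e a p i))
    (by
      intro c c' b
      funext e a q p r
      simp only [Pi.add_apply, ← Finset.sum_add_distrib]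
      exact Finset.sum_congr rfl fun i _ => by ring)
    (by
      intro t c b
      funext e a q p r
      simp only [Pi.smul_apply, smul_eq_mul, Finset.mul_sum]
      exact Finset.sum_congr rfl fun i _ => by ring)
    (by
      intro c b b'
      funext e a q p r
      simp only [Pi.add_apply, ← Finset.sum_add_distrib]
      exact Finset.sum_congr rfl fun i _ => by ring)
    (by
      intro t c b
      funext e a q p r
      simp only [Pi.smul_apply, smul_eq_mul, Finset.mul_sum]
      exact Finset.sum_congr rfl fun i _ => by ring)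

theorem rigid_iff {m : ℕ} (c : Fin m → Fin m → Fin m → ℝ) :
    Rigid c ↔ Function.Injective ((op m c).comp (Qua m).subtype) := by
  rw [← LinearMap.ker_eq_bot, LinearMap.ker_eq_bot']
  constructor
  · intro h b hb
    have := h b.1 b.2.1 b.2.2.1 b.2.2.2 (fun e a q p r =>
      congrFun (congrFun (congrFun (congrFun (congrFun hb e) a) q) p) r)
    exact Subtype.ext this
  · intro h b h1 h2 h3 h4
    have := h ⟨b, h1, h2, h3⟩ (by
      funext e a q p r
      exact h4 e a q p r)
    exact congrArg Subtype.val this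

/-- rigidity is an open condition -/
theorem rigid_open (m : ℕ) : IsOpen {c : Fin m → Fin m → Fin m → ℝ | Rigid c} := by
  set Φ : (Fin m → Fin m → Fin m → ℝ) →ₗ[ℝ]
      (Qua m →L[ℝ] (Fin m → Fin m → Fin m → Fin m → Fin m → ℝ)) :=
    (LinearMap.toContinuousLinearMap (𝕜 := ℝ) (E := Qua m)
      (F' := Fin m → Fin m → Fin m → Fin m → Fin m → ℝ)).toLinearMap.comp
      ((LinearMap.lcomp ℝ _ (Qua m).subtype).comp (op m)) with hΦ
  have hc : Continuous (fun c => Φ c) := by
    rw [continuous_clm_apply]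
    intro b
    exact LinearMap.continuous_of_finiteDimensional ((op m).flip b.1)
  have he : {c : Fin m → Fin m → Fin m → ℝ | Rigid c} =
      Φ ⁻¹' {L | Function.Injective L} := by
    ext c
    simp only [mem_ofPred_eq, mem_preimage]
    rw [rigid_iff]
    rfl
  rw [he]
  exact ContinuousLinearMap.isOpen_injective.preimage hc

/-- if one cubic form is rigid then the rigid forms are dense on every line parallel to it -/
theorem rigid_line {m : ℕ} {c₀ : Fin m → Fin m → Fin m → ℝ} (h₀ : Rigid c₀)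
    (c : Fin m → Fin m → Fin m → ℝ) : {t : ℝ | ¬ Rigid (c + t • c₀)}.Finite := by
  rw [rigid_iff] at h₀
  obtain ⟨g, hg⟩ := ((op m c₀).comp (Qua m).subtype).exists_leftInverse_of_injective
    (LinearMap.ker_eq_bot.2 h₀)
  set M : Module.End ℝ (Qua m) := g.comp ((op m c).comp (Qua m).subtype) with hM
  have hfin := Module.End.finite_hasEigenvalue M
  have hfin' : ((fun t : ℝ => -t) ⁻¹' {μ | M.HasEigenvalue μ}).Finite :=
    hfin.preimage (neg_injective.injOn)
  refine hfin'.subset fun t ht => ?_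
  simp only [mem_preimage, mem_ofPred_eq] at ht ⊢
  rw [rigid_iff, ← LinearMap.ker_eq_bot, LinearMap.ker_eq_bot'] at ht
  push Not at ht
  obtain ⟨b, hb, hb0⟩ := ht
  apply Module.End.hasEigenvalue_of_hasEigenvector (x := b)
  refine ⟨?_, hb0⟩
  rw [Module.End.mem_eigenspace_iff]
  have h1 : g (((op m (c + t • c₀)).comp (Qua m).subtype) b) = 0 := by rw [hb, map_zero]
  have h2 : ((op m (c + t • c₀)).comp (Qua m).subtype) b =
      ((op m c).comp (Qua m).subtype) b + t • ((op m c₀).comp (Qua m).subtype) b := by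
    simp only [map_add, map_smul, LinearMap.comp_apply, LinearMap.add_apply, LinearMap.smul_apply]
  rw [h2, map_add, map_smul] at h1
  have h3 : g (((op m c₀).comp (Qua m).subtype) b) = b := by
    have := congrArg (fun L => L b) hg
    exact this
  rw [h3] at h1
  rw [neg_smul, eq_neg_iff_add_eq_zero]
  exact h1

theorem rigid_dense {m : ℕ} {c₀ : Fin m → Fin m → Fin m → ℝ} (hs : IsCub c₀) (h₀ : Rigid c₀)
    {c : Fin m → Fin m → Fin m → ℝ} (hc : IsCub c) : c ∈ closure {c | IsCub c ∧ Rigid c} := by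
  have hfin := rigid_line h₀ c
  have ht : Tendsto (fun t : ℝ => c + t • c₀) (𝓝[≠] 0) (𝓝 c) := by
    have h1 : Tendsto (fun t : ℝ => c + t • c₀) (𝓝 0) (𝓝 (c + (0 : ℝ) • c₀)) :=
      (tendsto_id.smul_const c₀).const_add c
    rw [zero_smul, add_zero] at h1
    exact h1.mono_left nhdsWithin_le_nhds
  refine mem_closure_of_frequently_of_tendsto ?_ ht
  have hev : ∀ᶠ t in 𝓝[≠] (0 : ℝ), IsCub (c + t • c₀) ∧ Rigid (c + t • c₀) := by
    have h2 : ({t : ℝ | ¬ Rigid (c + t • c₀)} \ {0})ᶜ ∈ 𝓝 (0 : ℝ) := by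
      apply IsOpen.mem_nhds
      · exact (hfin.subset sdiff_subset).isClosed.isOpen_compl
      · simp
    have h3 : ({t : ℝ | ¬ Rigid (c + t • c₀)} \ {0})ᶜ ∈ 𝓝[≠] (0 : ℝ) :=
      nhdsWithin_le_nhds h2
    filter_upwards [h3, self_mem_nhdsWithin] with t h4 h5
    refine ⟨hc.add (hs.smul t), ?_⟩
    by_contra h6
    exact h4 ⟨h6, h5⟩
  exact hev.frequently

end Pool.Agent.H792.Gen
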