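import Pool.Graph.R_seed8.R774.BW.Fins

/-!
# Rigid cubic forms, and the Cartan torsion in an adapted frame: definitions
-/

set_option autoImplicit false

open scoped BigOperators

namespace Pool.Agent.H792.Gen

open Pool.Agent.R774.BW

/-- the array `c` is symmetric: a cubic form on `ℝ^m` -/
def IsCub {m : ℕ} (c : Fin m → Fin m → Fin m → ℝ) : Prop :=
  (∀ i j k, c i j k = c j i k) ∧ ∀ i j k, c i j k = c i k j

/-- A cubic form `c` on `ℝ^m` (symmetric, given by its components in an orthonormal frame) is rigid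
if the only quartic form `b` with
`Σ_i (c(a,p,i) b(e,q,r,i) - c(a,r,i) b(e,q,p,i) - c(q,p,i) b(e,a,r,i) + c(q,r,i) b(e,a,p,i)) = 0`
for all indices is `b = 0`. -/
def Rigid {m : ℕ} (c : Fin m → Fin m → Fin m → ℝ) : Prop :=
  ∀ b : Fin m → Fin m → Fin m → Fin m → ℝ,
    (∀ i j k l, b i j k l = b j i k l) → (∀ i j k l, b i j k l = b i k j l) →
    (∀ i j k l, b i j k l = b i j l k) →
    (∀ e a q p r, ∑ i, (c a p i * b e q r i - c a r i * b e q p i - c q p i * b e a r i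
      + c q r i * b e a p i) = 0) → b = 0

/-- the inner product `g_y(u,v)`, `g_ij = (1/2) ∂²F²/∂y^i∂y^j` -/
noncomputable def gform {n : ℕ} (F : (Fin n → ℝ) → (Fin n → ℝ) → ℝ) (x y u v : Fin n → ℝ) : ℝ :=
  ∑ i, ∑ j, gmat F x y i j * u i * v j

/-- the Cartan torsion `C_y(u,v,w)`, `C_ijk = (1/4) ∂³F²/∂y^i∂y^j∂y^k` -/
noncomputable def cform {n : ℕ} (F : (Fin n → ℝ) → (Fin n → ℝ) → ℝ) (x y u v w : Fin n → ℝ) : ℝ :=
  ∑ i, ∑ j, ∑ k, 1 / 4 * pd i (pd j (pd k (fun z => F x z ^ 2))) y * u i * v j * w k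

/-- the Landsberg curvature vanishes over `U` -/
def IsLandsberg {n : ℕ} (U : Set (Fin n → ℝ)) (F : (Fin n → ℝ) → (Fin n → ℝ) → ℝ)
    (G : (Fin n → ℝ) → (Fin n → ℝ) → (Fin n → ℝ)) : Prop :=
  ∀ x ∈ U, ∀ y : Fin n → ℝ, y ≠ 0 → ∀ j k l, landsberg F G x y j k l = 0

/-- `f` is a `g_y`-orthonormal basis of the `g_y`-orthogonal complement of `y` -/
structure Adapted {m : ℕ} (F : (Fin (m + 1) → ℝ) → (Fin (m + 1) → ℝ) → ℝ)
    (x y : Fin (m + 1) → ℝ) (f : Fin m → Fin (m + 1) → ℝ) : Prop where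
  orthonormal : ∀ a b, gform F x y (f a) (f b) = if a = b then 1 else 0
  perp : ∀ a, gform F x y (f a) y = 0

end Pool.Agent.H792.Gen
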