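import Pool.Agent.H792.Gen.Cubic

/-!
# A rigid cubic form on `ℝ^m` for every `m ≥ 3`
-/

set_option autoImplicit false

open scoped BigOperators ContDiff Topology
open Filter Set

namespace Pool.Agent.H792.Gen

/-- the cubic form `3 x₀² Σ x_k + 3 x₀ Σ k x_k²` -/
def c0 {r : ℕ} (i j k : Fin (r + 1)) : ℝ :=
  (if i = 0 ∧ j = k then ((j : ℕ) : ℝ) else 0) + (if j = 0 ∧ i = k then ((i : ℕ) : ℝ) else 0) +
  (if k = 0 ∧ i = j then ((i : ℕ) : ℝ) else 0) +
  ((if i = 0 ∧ j = 0 ∧ k ≠ 0 then 1 else 0) + (if i = 0 ∧ k = 0 ∧ j ≠ 0 then 1 else 0) +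
  (if j = 0 ∧ k = 0 ∧ i ≠ 0 then 1 else 0))

theorem c0_symm1 {r : ℕ} (i j k : Fin (r + 1)) : c0 i j k = c0 j i k := by
  unfold c0
  by_cases h : i = j
  · subst h; ring
  · have h' : ¬ j = i := fun e => h e.symm
    simp only [h, h', and_false, if_false]
    have e1 : (i = 0 ∧ j = 0 ∧ k ≠ 0) ↔ (j = 0 ∧ i = 0 ∧ k ≠ 0) := by tauto
    simp only [e1]
    ring

theorem c0_symm2 {r : ℕ} (i j k : Fin (r + 1)) : c0 i j k = c0 i k j := by
  unfold c0
  by_cases h : j = k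
  · subst h; ring
  · have h' : ¬ k = j := fun e => h e.symm
    simp only [h, h', and_false, if_false]
    have e1 : (j = 0 ∧ k = 0 ∧ i ≠ 0) ↔ (k = 0 ∧ j = 0 ∧ i ≠ 0) := by tauto
    simp only [e1]
    ring

section

variable {r : ℕ} (β : Fin (r + 1) → ℝ)

theorem S00 : ∑ i, c0 0 0 i * β i = ∑ i, (if i = 0 then 0 else β i) := by
  refine Finset.sum_congr rfl fun i _ => ?_
  by_cases h : i = 0
  · subst h; simp [c0]
  · have h' : ¬ (0 = i) := fun e => h e.symm
    simp [c0, h, h']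

theorem S0k {k : Fin (r + 1)} (hk : k ≠ 0) :
    ∑ i, c0 0 k i * β i = ((k : ℕ) : ℝ) * β k + β 0 := by
  have h : ∀ i, c0 0 k i * β i = (if i = k then ((k : ℕ) : ℝ) * β k else 0) +
      (if i = 0 then β 0 else 0) := by
    intro i
    by_cases h1 : i = 0
    · subst h1
      simp [c0, hk, hk.symm]
    · by_cases h2 : i = k
      · subst h2
        simp [c0, hk]
      · have h3 : ¬ (k = i) := fun e => h2 e.symm
        simp [c0, h1, h2, h3, hk]
  simp only [h, Finset.sum_add_distrib]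
  simp

theorem Sk0 {k : Fin (r + 1)} (hk : k ≠ 0) :
    ∑ i, c0 k 0 i * β i = ((k : ℕ) : ℝ) * β k + β 0 := by
  rw [← S0k β hk]
  exact Finset.sum_congr rfl fun i _ => by rw [c0_symm1]

theorem Skk {k : Fin (r + 1)} (hk : k ≠ 0) : ∑ i, c0 k k i * β i = ((k : ℕ) : ℝ) * β 0 := by
  have h : ∀ i, c0 k k i * β i = (if i = 0 then ((k : ℕ) : ℝ) * β 0 else 0) := by
    intro i
    by_cases h1 : i = 0
    · subst h1
      simp [c0, hk]
    · simp [c0, h1, hk]
  simp only [h]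
  simp

theorem Sjk {j k : Fin (r + 1)} (hj : j ≠ 0) (hk : k ≠ 0) (hjk : j ≠ k) :
    ∑ i, c0 j k i * β i = 0 := by
  refine Finset.sum_eq_zero fun i _ => ?_
  simp [c0, hj, hk, hjk]

end

theorem rigid_c0_ge {r : ℕ} (hr : 3 ≤ r) : Rigid (c0 (r := r)) := by
  intro b s1 s2 s3 hb
  have h : ∀ e a q p t, ∑ i, c0 a p i * b e q t i - ∑ i, c0 a t i * b e q p i
      - ∑ i, c0 q p i * b e a t i + ∑ i, c0 q t i * b e a p i = 0 := by
    intro e a q p t
    have := hb e a q p t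
    simp only [Finset.sum_add_distrib, Finset.sum_sub_distrib] at this
    exact this
  have hval : ∀ k : Fin (r + 1), k ≠ 0 → ((k : ℕ) : ℝ) ≠ 0 := by
    intro k hk h0
    apply hk
    have : (k : ℕ) = 0 := by exact_mod_cast h0
    exact Fin.ext this
  have hinj : ∀ k l : Fin (r + 1), k ≠ l → ((k : ℕ) : ℝ) - ((l : ℕ) : ℝ) ≠ 0 := by
    intro k l hkl h0
    apply hkl
    have : ((k : ℕ) : ℝ) = ((l : ℕ) : ℝ) := by linarith
    exact Fin.ext (by exact_mod_cast this)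
  -- a third index
  have hthird : ∀ j l : Fin (r + 1), ∃ i : Fin (r + 1), i ≠ 0 ∧ i ≠ j ∧ i ≠ l := by
    intro j l
    have hc : ({0, j, l} : Finset (Fin (r + 1))).card < Fintype.card (Fin (r + 1)) := by
      have := Finset.card_le_three (a := (0 : Fin (r + 1))) (b := j) (c := l)
      simp only [Fintype.card_fin]
      omega
    obtain ⟨i, hi⟩ := Finset.exists_mem_notMem_of_card_lt_card
      (s := ({0, j, l} : Finset (Fin (r + 1)))) (t := Finset.univ) (by simpa using hc)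
    simp only [Finset.mem_insert, Finset.mem_singleton, not_or] at hi
    exact ⟨i, hi.2.1, hi.2.2.1, hi.2.2.2⟩
  have A1 : ∀ e j l, j ≠ 0 → l ≠ 0 → j ≠ l → b e j l 0 = 0 := by
    intro e j l hj hl hjl
    obtain ⟨i, hi0, hij, hil⟩ := hthird j l
    have := h e i j i l
    rw [Skk _ hi0, Sjk _ hi0 hl hil, Sjk _ hj hi0 hij.symm, Sjk _ hj hl hjl] at this
    have h2 : ((i : ℕ) : ℝ) * b e j l 0 = 0 := by linarith
    exact (mul_eq_zero.1 h2).resolve_left (hval i hi0)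
  have A2 : ∀ e i j : Fin (r + 1), i ≠ 0 → j ≠ 0 → i ≠ j →
      ((i : ℕ) : ℝ) * b e j j 0 + ((j : ℕ) : ℝ) * b e i i 0 = 0 := by
    intro e i j hi hj hij
    have := h e i j i j
    rw [Skk _ hi, Sjk _ hi hj hij, Sjk _ hj hi hij.symm, Skk _ hj] at this
    linarith
  have A3 : ∀ e j l, e ≠ 0 → j ≠ 0 → l ≠ 0 → b e j l 0 = 0 := by
    intro e j l he hj hl
    by_cases hjl : j = l
    · subst hjl
      by_cases hej : e = j
      · subst hej
        obtain ⟨i, hi0, hij, -⟩ := hthird e e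
        have h1 := A2 e e i he hi0 hij.symm
        have h2 : b e i i 0 = 0 := by
          rw [s1 e i i 0]
          exact A1 i e i he hi0 hij.symm
        rw [h2, mul_zero, zero_add] at h1
        exact (mul_eq_zero.1 h1).resolve_left (hval i hi0)
      · rw [s1 e j j 0]
        exact A1 j e j he hj hej
    · exact A1 e j l hj hl hjl
  have A4 : ∀ j l, j ≠ 0 → l ≠ 0 → b 0 j l 0 = 0 := by
    intro j l hj hl
    by_cases hjl : j = l
    · subst hjl
      obtain ⟨i, hi0, hij, -⟩ := hthird j j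
      obtain ⟨k, hk0, hkj, hki⟩ := hthird j i
      have e1 := A2 0 i j hi0 hj hij
      have e2 := A2 0 k j hk0 hj hkj
      have e3 := A2 0 i k hi0 hk0 hki.symm
      have e4 : ((i : ℕ) : ℝ) * ((k : ℕ) : ℝ) * (2 * b 0 j j 0) = 0 := by
        linear_combination ((k : ℕ) : ℝ) * e1 + ((i : ℕ) : ℝ) * e2 - ((j : ℕ) : ℝ) * e3
      have e5 := (mul_eq_zero.1 e4).resolve_left (mul_ne_zero (hval i hi0) (hval k hk0))
      linarith
    · exact A1 0 j l hj hl hjl
  have rot : ∀ i j k l, b i j k l = b j k l i := by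
    intro i j k l
    rw [s1 i j k l, s2 j i k l, s3 j k i l]
  have A5 : ∀ l, l ≠ 0 → b 0 0 l 0 = 0 := by
    intro l hl
    obtain ⟨k, hk0, hkl, -⟩ := hthird l l
    have := h 0 0 k k l
    rw [S0k _ hk0, S0k _ hl, Skk _ hk0, Sjk _ hk0 hl hkl, rot 0 k l k, A3 k l k hk0 hl hk0,
      A4 k l hk0 hl, rot 0 k k l, A3 k k l hk0 hk0 hl, A4 k k hk0 hk0] at this
    have h2 : ((k : ℕ) : ℝ) * b 0 0 l 0 = 0 := by linarith
    exact (mul_eq_zero.1 h2).resolve_left (hval k hk0)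
  have A6 : b 0 0 0 0 = 0 := by
    obtain ⟨j, hj, -, -⟩ := hthird 0 0
    have := h 0 0 j 0 j
    rw [S00, S0k _ hj, Sk0 _ hj, Skk _ hj] at this
    have e1 : ∑ i, (if i = 0 then 0 else b 0 j j i) = 0 := by
      refine Finset.sum_eq_zero fun i _ => ?_
      by_cases hi : i = 0
      · rw [if_pos hi]
      · rw [if_neg hi, rot 0 j j i, A3 j j i hj hj hi]
    rw [e1, s2 0 j 0 j, rot 0 0 j j, A4 j j hj hj, s2 0 j 0 0, A5 j hj] at this
    have h2 : ((j : ℕ) : ℝ) * b 0 0 0 0 = 0 := by linarith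
    exact (mul_eq_zero.1 h2).resolve_left (hval j hj)
  have Z0 : ∀ j l, b 0 j l 0 = 0 := by
    intro j l
    by_cases hj : j = 0
    · subst hj
      by_cases hl : l = 0
      · subst hl; exact A6
      · exact A5 l hl
    · by_cases hl : l = 0
      · subst hl
        rw [s2 0 j 0 0]
        exact A5 j hj
      · exact A4 j l hj hl
  have Z : ∀ e j l, b e j l 0 = 0 := by
    intro e j l
    by_cases he : e = 0
    · subst he; exact Z0 j l
    · by_cases hj : j = 0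
      · subst hj
        rw [s1 e 0 l 0]
        exact Z0 e l
      · by_cases hl : l = 0
        · subst hl
          rw [s2 e j 0 0, s1 e 0 j 0]
          exact Z0 e j
        · exact A3 e j l he hj hl
  have A7 : ∀ s j k l, k ≠ 0 → l ≠ 0 → k ≠ l → b s j k l = 0 := by
    intro s j k l hk hl hkl
    have := h s 0 j k l
    have e1 : ∑ i, c0 j k i * b s 0 l i = 0 := Finset.sum_eq_zero fun i _ => by
      rw [s2 s 0 l i, s3 s l 0 i, Z, mul_zero]
    have e2 : ∑ i, c0 j l i * b s 0 k i = 0 := Finset.sum_eq_zero fun i _ => by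
      rw [s2 s 0 k i, s3 s k 0 i, Z, mul_zero]
    rw [S0k _ hk, S0k _ hl, e1, e2, Z, Z, s3 s j l k] at this
    have h2 : (((k : ℕ) : ℝ) - ((l : ℕ) : ℝ)) * b s j k l = 0 := by linarith
    exact (mul_eq_zero.1 h2).resolve_left (hinj k l hkl)
  have A8 : ∀ s, s ≠ 0 → b s s s s = 0 := by
    intro s hs
    have := h s 0 s 0 s
    have e1 : ∑ i, c0 0 s i * b s s 0 i = 0 := Finset.sum_eq_zero fun i _ => by
      rw [s3 s s 0 i, Z, mul_zero]
    have e2 : ∑ i, c0 s 0 i * b s 0 s i = 0 := Finset.sum_eq_zero fun i _ => by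
      rw [s2 s 0 s i, s3 s s 0 i, Z, mul_zero]
    have e3 : ∑ i, c0 s s i * b s 0 0 i = 0 := Finset.sum_eq_zero fun i _ => by
      rw [s3 s 0 0 i, Z, mul_zero]
    have e4 : ∑ i, (if i = 0 then 0 else b s s s i) = b s s s s := by
      rw [Finset.sum_eq_single s]
      · rw [if_neg hs]
      · intro i _ his
        by_cases hi : i = 0
        · rw [if_pos hi]
        · rw [if_neg hi, A7 s s s i hs hi his.symm]
      · intro h1
        exact absurd (Finset.mem_univ s) h1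
    rw [S00, e1, e2, e3, e4] at this
    linarith
  funext i j k l
  simp only [Pi.zero_apply]
  by_cases hl : l = 0
  · subst hl; exact Z i j k
  by_cases hk : k = 0
  · subst hk; rw [s3]; exact Z i j l
  by_cases hj : j = 0
  · subst hj; rw [s2 i 0 k l, s3 i k 0 l]; exact Z i k l
  by_cases hi : i = 0
  · subst hi; rw [rot]; exact Z j k l
  by_cases hkl : k = l
  · subst hkl
    by_cases hjk : j = k
    · subst hjk
      by_cases hij : i = j
      · subst hij; exact A8 i hi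
      · rw [s1 i j j j, s2 j i j j]; exact A7 j j i j hi hj hij
    · rw [s2 i j k k]; exact A7 i k j k hj hk hjk
  · exact A7 i j k l hk hl hkl

theorem rigid_c0_two : Rigid (c0 (r := 2)) := by
  intro b s1 s2 s3 hb
  have a1 : ∀ k l, b 1 0 k l = b 0 1 k l := fun k l => s1 1 0 k l
  have a2 : ∀ k l, b 2 0 k l = b 0 2 k l := fun k l => s1 2 0 k l
  have a3 : ∀ k l, b 2 1 k l = b 1 2 k l := fun k l => s1 2 1 k l
  have a4 : ∀ i l, b i 1 0 l = b i 0 1 l := fun i l => s2 i 1 0 l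
  have a5 : ∀ i l, b i 2 0 l = b i 0 2 l := fun i l => s2 i 2 0 l
  have a6 : ∀ i l, b i 2 1 l = b i 1 2 l := fun i l => s2 i 2 1 l
  have a7 : ∀ i j, b i j 1 0 = b i j 0 1 := fun i j => s3 i j 1 0
  have a8 : ∀ i j, b i j 2 0 = b i j 0 2 := fun i j => s3 i j 2 0
  have a9 : ∀ i j, b i j 2 1 = b i j 1 2 := fun i j => s3 i j 2 1
  have n20 : ¬ ((2 : Fin (2 + 1)) = 0) := by decide
  have n02 : ¬ ((0 : Fin (2 + 1)) = 2) := by decide
  have n12 : ¬ ((1 : Fin (2 + 1)) = 2) := by decide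
  have n21 : ¬ ((2 : Fin (2 + 1)) = 1) := by decide
  have v2 : (((2 : Fin (2 + 1)) : ℕ) : ℝ) = 2 := by norm_num
  have c000 : c0 (r := 2) 0 0 0 = 0 := by norm_num [c0]
  have c001 : c0 (r := 2) 0 0 1 = 1 := by norm_num [c0]
  have c002 : c0 (r := 2) 0 0 2 = 1 := by norm_num [c0, n20, n02, n12, n21]
  have c011 : c0 (r := 2) 0 1 1 = 1 := by norm_num [c0]
  have c012 : c0 (r := 2) 0 1 2 = 0 := by norm_num [c0, n20, n02, n12, n21]
  have c022 : c0 (r := 2) 0 2 2 = 2 := by norm_num [c0, n20, n02, n12, n21]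
  have c111 : c0 (r := 2) 1 1 1 = 0 := by norm_num [c0]
  have c112 : c0 (r := 2) 1 1 2 = 0 := by norm_num [c0, n20, n02, n12, n21]
  have c122 : c0 (r := 2) 1 2 2 = 0 := by norm_num [c0, n20, n02, n12, n21]
  have c222 : c0 (r := 2) 2 2 2 = 0 := by norm_num [c0, n20, n02, n12, n21]
  have d1 : ∀ k, c0 (r := 2) 1 0 k = c0 0 1 k := fun k => c0_symm1 1 0 k
  have d2 : ∀ k, c0 (r := 2) 2 0 k = c0 0 2 k := fun k => c0_symm1 2 0 k
  have d3 : ∀ k, c0 (r := 2) 2 1 k = c0 1 2 k := fun k => c0_symm1 2 1 k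
  have d4 : ∀ i, c0 (r := 2) i 1 0 = c0 i 0 1 := fun i => c0_symm2 i 1 0
  have d5 : ∀ i, c0 (r := 2) i 2 0 = c0 i 0 2 := fun i => c0_symm2 i 2 0
  have d6 : ∀ i, c0 (r := 2) i 2 1 = c0 i 1 2 := fun i => c0_symm2 i 2 1
  have E : ∀ e a q p t : Fin (2 + 1),
      (c0 a p 0 * b e q t 0 - c0 a t 0 * b e q p 0 - c0 q p 0 * b e a t 0
        + c0 q t 0 * b e a p 0) +
      (c0 a p 1 * b e q t 1 - c0 a t 1 * b e q p 1 - c0 q p 1 * b e a t 1
        + c0 q t 1 * b e a p 1) +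
      (c0 a p 2 * b e q t 2 - c0 a t 2 * b e q p 2 - c0 q p 2 * b e a t 2
        + c0 q t 2 * b e a p 2) = 0 := by
    intro e a q p t
    have h : ∑ i : Fin 3, (c0 (r := 2) a p i * b e q t i - c0 (r := 2) a t i * b e q p i
      - c0 (r := 2) q p i * b e a t i + c0 (r := 2) q t i * b e a p i) = 0 := hb e a q p t
    rw [Fin.sum_univ_three] at h
    exact h
  have k1 := E 0 0 1 0 1
  have k2 := E 0 0 1 0 2
  have k3 := E 0 0 1 1 2
  have k4 := E 0 0 2 0 2
  have k5 := E 0 0 2 1 2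
  have k6 := E 0 1 2 1 2
  have k7 := E 1 0 1 0 1
  have k8 := E 1 0 1 0 2
  have k9 := E 1 0 1 1 2
  have k10 := E 1 0 2 0 2
  have k11 := E 1 0 2 1 2
  have k12 := E 1 1 2 1 2
  have k13 := E 2 0 1 0 1
  have k14 := E 2 0 1 0 2
  have k15 := E 2 0 1 1 2
  have k16 := E 2 0 2 0 2
  have k17 := E 2 0 2 1 2
  have k18 := E 2 1 2 1 2
  simp only [a1, a2, a3, a4, a5, a6, a7, a8, a9, d1, d2, d3, d4, d5, d6, c000, c001, c002, c011,
    c012, c022, c111, c112, c122, c222, zero_mul, one_mul, add_zero, sub_zero]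
    at k1 k2 k3 k4 k5 k6 k7 k8 k9 k10 k11 k12 k13 k14 k15 k16 k17 k18
  have z0000 : b 0 0 0 0 = 0 := by linarith
  have z0001 : b 0 0 0 1 = 0 := by linarith
  have z0002 : b 0 0 0 2 = 0 := by linarith
  have z0011 : b 0 0 1 1 = 0 := by linarith
  have z0012 : b 0 0 1 2 = 0 := by linarith
  have z0022 : b 0 0 2 2 = 0 := by linarith
  have z0111 : b 0 1 1 1 = 0 := by linarith
  have z0112 : b 0 1 1 2 = 0 := by linarith
  have z0122 : b 0 1 2 2 = 0 := by linarith
  have z0222 : b 0 2 2 2 = 0 := by linarith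
  have z1111 : b 1 1 1 1 = 0 := by linarith
  have z1112 : b 1 1 1 2 = 0 := by linarith
  have z1122 : b 1 1 2 2 = 0 := by linarith
  have z1222 : b 1 2 2 2 = 0 := by linarith
  have z2222 : b 2 2 2 2 = 0 := by linarith
  funext i j k l
  simp only [Pi.zero_apply]
  fin_cases i <;> fin_cases j <;> fin_cases k <;> fin_cases l <;>
    simp only [Fin.zero_eta, Fin.mk_one, Fin.reduceFinMk, a1, a2, a3, a4, a5, a6, a7, a8, a9,
      z0000, z0001, z0002, z0011, z0012, z0022, z0111, z0112, z0122, z0222, z1111, z1112, z1122,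
      z1222, z2222]

/-- rigid cubic forms exist in every dimension at least three -/
theorem exists_rigid {m : ℕ} (hm : 3 ≤ m) :
    ∃ c : Fin m → Fin m → Fin m → ℝ, IsCub c ∧ Rigid c := by
  obtain ⟨r, rfl⟩ : ∃ r, m = r + 1 := ⟨m - 1, by omega⟩
  refine ⟨c0, ⟨c0_symm1, c0_symm2⟩, ?_⟩
  rcases Nat.lt_or_ge 2 r with h | h
  · exact rigid_c0_ge h
  · obtain rfl : r = 2 := by omega
    exact rigid_c0_two

end Pool.Agent.H792.Gen
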