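import Pool.Agent.H792.Gen.Exist

/-!
# Landsberg metrics with a rigid Cartan form
-/

set_option autoImplicit false

open scoped BigOperators ContDiff Topology
open Filter Set

namespace Pool.Agent.H792.Gen

open Pool.Agent.R774.BW

theorem gform_eq {m : ℕ} {F : (Fin (m + 1) → ℝ) → (Fin (m + 1) → ℝ) → ℝ} {x y : Fin (m + 1) → ℝ}
    (hQ : MN (fun z => F x z ^ 2)) (hy : y ≠ 0) (u v : Fin (m + 1) → ℝ) :
    gform F x y u v = 1 / 2 * dd u (dd v (fun z => F x z ^ 2)) y := by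
  rw [hess_bilin hQ hy, Matrix.toBilin'_apply, Finset.mul_sum]
  unfold gform
  refine Finset.sum_congr rfl fun i _ => ?_
  rw [Finset.mul_sum]
  refine Finset.sum_congr rfl fun j _ => ?_
  have e : gmat F x y i j = 1 / 2 * A (fun z => F x z ^ 2) y i j := rfl
  rw [e]
  ring

theorem cform_eq {m : ℕ} {F : (Fin (m + 1) → ℝ) → (Fin (m + 1) → ℝ) → ℝ} {x y : Fin (m + 1) → ℝ}
    (hQ : MN (fun z => F x z ^ 2)) (hy : y ≠ 0) (u v w : Fin (m + 1) → ℝ) :
    cform F x y u v w = 1 / 4 * dd u (dd v (dd w (fun z => F x z ^ 2))) y := by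
  rw [dd3_eq hQ.sm u v w hy, Finset.mul_sum]
  unfold cform
  refine Finset.sum_congr rfl fun i _ => ?_
  rw [Finset.mul_sum]
  refine Finset.sum_congr rfl fun j _ => ?_
  rw [Finset.mul_sum]
  exact Finset.sum_congr rfl fun k _ => by ring

/-- the Landsberg condition for arbitrary vectors -/
theorem lands_vec {n : ℕ} {U : Set (Fin n → ℝ)}
    {F : (Fin n → ℝ) → (Fin n → ℝ) → ℝ}
    {G : (Fin n → ℝ) → (Fin n → ℝ) → (Fin n → ℝ)} (hF : IsFinsler U F)
    (hG : IsSpray U F G)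
    (hL : ∀ x ∈ U, ∀ y : Fin n → ℝ, y ≠ 0 → ∀ j k l, landsberg F G x y j k l = 0)
    {x : Fin n → ℝ} (hx : x ∈ U) (y : Fin n → ℝ) (hy : y ≠ 0)
    (u v w : Fin n → ℝ) :
    ∑ i, pd i (fun z => F x z ^ 2) y * dd u (dd v (dd w (fun z => G x z i))) y = 0 := by
  have h1 : ∀ j k l, ∑ i, pd i (fun z => F x z ^ 2) y *
      pd j (pd k (pd l (fun z => G x z i))) y = 0 := by
    intro j k l
    have := hL x hx y hy j k l
    unfold landsberg at this
    have h2 : ∑ i, fderiv ℝ (fun u => F x u ^ 2) y (Pi.single i (1 : ℝ) : Fin n → ℝ) *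
        berwald G x y i j k l = 0 := by linarith
    exact h2
  have h2 : ∀ i, pd i (fun z => F x z ^ 2) y * dd u (dd v (dd w (fun z => G x z i))) y =
      ∑ a, ∑ b, ∑ c, u a * v b * w c * (pd i (fun z => F x z ^ 2) y *
        pd a (pd b (pd c (fun z => G x z i))) y) := by
    intro i
    rw [dd3_eq (spray_sm hF hG hx i) u v w hy, Finset.mul_sum]
    refine Finset.sum_congr rfl fun a _ => ?_
    rw [Finset.mul_sum]
    refine Finset.sum_congr rfl fun b _ => ?_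
    rw [Finset.mul_sum]
    exact Finset.sum_congr rfl fun c _ => by ring
  simp only [h2]
  rw [Finset.sum_comm]
  refine Finset.sum_eq_zero fun a _ => ?_
  rw [Finset.sum_comm]
  refine Finset.sum_eq_zero fun b _ => ?_
  rw [Finset.sum_comm]
  refine Finset.sum_eq_zero fun c _ => ?_
  rw [← Finset.mul_sum, h1, mul_zero]

theorem berwald_zero {m : ℕ} {U : Set (Fin (m + 1) → ℝ)}
    {F : (Fin (m + 1) → ℝ) → (Fin (m + 1) → ℝ) → ℝ}
    {G : (Fin (m + 1) → ℝ) → (Fin (m + 1) → ℝ) → (Fin (m + 1) → ℝ)} (hF : IsFinsler U F)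
    (hG : IsSpray U F G)
    (hL : ∀ x ∈ U, ∀ y : Fin (m + 1) → ℝ, y ≠ 0 → ∀ j k l, landsberg F G x y j k l = 0)
    {x : Fin (m + 1) → ℝ} (hx : x ∈ U) {y : Fin (m + 1) → ℝ} (hy : y ≠ 0)
    {f : Fin m → Fin (m + 1) → ℝ}
    (hf : ∀ a b, gform F x y (f a) (f b) = if a = b then 1 else 0)
    (hfy : ∀ a, gform F x y (f a) y = 0)
    (hR : Rigid fun a b c => cform F x y (f a) (f b) (f c)) (i j k l : Fin (m + 1)) :
    berwald G x y i j k l = 0 := by
  have hQ := hF.mn hx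
  have hf' : ∀ a b, dd (f a) (dd (f b) (fun z => F x z ^ 2)) y = if a = b then 2 else 0 := by
    intro a b
    have := hf a b
    rw [gform_eq hQ hy] at this
    split_ifs at this ⊢ <;> linarith
  have hfy' : ∀ a, dd (f a) (dd y (fun z => F x z ^ 2)) y = 0 := by
    intro a
    have := hfy a
    rw [gform_eq hQ hy] at this
    linarith
  simp only [cform_eq hQ hy] at hR
  have h := X_zero (G := fun i z => G x z i) hQ (fun i => spray_sm hF hG hx i)
    (fun y hy u v w => lands_vec hF hG hL hx y hy u v w) hy hf' hfy' hR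
    (Pi.single j 1) (Pi.single k 1) (Pi.single l 1)
  exact congrFun h i

theorem main {m : ℕ} (hm : 3 ≤ m) :
    IsOpen {c : Fin m → Fin m → Fin m → ℝ | Rigid c} ∧
    (∀ c : Fin m → Fin m → Fin m → ℝ, IsCub c → c ∈ closure {c | IsCub c ∧ Rigid c}) ∧
    ∀ (U : Set (Fin (m + 1) → ℝ)) (F : (Fin (m + 1) → ℝ) → (Fin (m + 1) → ℝ) → ℝ)
      (G : (Fin (m + 1) → ℝ) → (Fin (m + 1) → ℝ) → (Fin (m + 1) → ℝ)),
      IsFinsler U F → IsSpray U F G → IsLandsberg U F G →
      ∀ x ∈ U, ∀ y : Fin (m + 1) → ℝ, y ≠ 0 → ∀ f : Fin m → Fin (m + 1) → ℝ, Adapted F x y f →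
        Rigid (fun a b c => cform F x y (f a) (f b) (f c)) →
        ∀ i j k l, berwald G x y i j k l = 0 := by
  refine ⟨rigid_open m, ?_, ?_⟩
  · obtain ⟨c₀, hs, h₀⟩ := exists_rigid hm
    exact fun c hc => rigid_dense hs h₀ hc
  · intro U F G hF hG hL x hx y hy f hf hR i j k l
    exact berwald_zero hF hG hL hx hy hf.1 hf.2 hR i j k l

end Pool.Agent.H792.Gen
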