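import Pool.Agent.H792.Gen.Star
import Pool.Agent.H792.Gen.Defs

/-!
# Frames adapted to a vector, and rigid cubic forms
-/

set_option autoImplicit false

open scoped BigOperators ContDiff Topology
open Filter Set

namespace Pool.Agent.H792.Gen

open Pool.Agent.R774.BW

section linalg

variable {m : ℕ}

/-- a vector orthogonal to an adapted frame and to `y` vanishes -/
theorem frame_zero {M : Matrix (Fin (m + 1)) (Fin (m + 1)) ℝ} (hM : M.PosDef)
    {y : Fin (m + 1) → ℝ} (hy : y ≠ 0) {f : Fin m → Fin (m + 1) → ℝ}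
    (hf : ∀ a b, a ≠ b → Matrix.toBilin' M (f a) (f b) = 0) (hf0 : ∀ a, f a ≠ 0)
    (hfy : ∀ a, Matrix.toBilin' M (f a) y = 0) {z : Fin (m + 1) → ℝ}
    (hzf : ∀ a, Matrix.toBilin' M z (f a) = 0) (hzy : Matrix.toBilin' M z y = 0) : z = 0 := by
  by_contra hz
  have hpos : ∀ v : Fin (m + 1) → ℝ, v ≠ 0 → Matrix.toBilin' M v v ≠ 0 := by
    intro v hv
    have := hM.dotProduct_mulVec_pos hv
    rw [Matrix.toBilin'_apply']
    simp only [star_trivial] at this
    exact this.ne'
  have hsymm : ∀ u v, Matrix.toBilin' M u v = Matrix.toBilin' M v u := by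
    intro u v
    have hT : M.transpose = M := by
      have := hM.isHermitian
      ext i j
      have h2 := congrFun (congrFun this i) j
      simpa [Matrix.conjTranspose_apply] using h2
    rw [Matrix.toBilin'_apply', Matrix.toBilin'_apply', Matrix.dotProduct_mulVec,
      ← Matrix.mulVec_transpose, hT, dotProduct_comm]
  set v : Option (Option (Fin m)) → (Fin (m + 1) → ℝ) := fun o =>
    match o with
    | none => z
    | some none => y
    | some (some a) => f a with hv
  have hli : LinearIndependent ℝ v := by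
    apply LinearMap.BilinForm.linearIndependent_of_iIsOrtho (B := Matrix.toBilin' M)
    · intro i j hij
      rcases i with _ | _ | a <;> rcases j with _ | _ | b
      · exact absurd rfl hij
      · exact hzy
      · exact hzf b
      · exact (hsymm _ _).trans hzy
      · exact absurd rfl hij
      · exact (hsymm _ _).trans (hfy b)
      · exact (hsymm _ _).trans (hzf a)
      · exact hfy a
      · exact hf a b fun h => hij (by rw [h])
    · intro i hi
      rcases i with _ | _ | a
      · exact hpos z hz hi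
      · exact hpos y hy hi
      · exact hpos (f a) (hf0 a) hi
  have := hli.fintype_card_le_finrank
  simp at this

end linalg

section

variable {m : ℕ} {Q : (Fin (m + 1) → ℝ) → ℝ} (hQ : MN Q)
  {G : Fin (m + 1) → (Fin (m + 1) → ℝ) → ℝ} (hG : ∀ i, Sm (G i))
  (hL : ∀ y, y ≠ 0 → ∀ u v w : Fin (m + 1) → ℝ,
    ∑ i, pd i Q y * dd u (dd v (dd w (G i))) y = 0)
  {y : Fin (m + 1) → ℝ} (hy : y ≠ 0) {f : Fin m → Fin (m + 1) → ℝ}
  (hf : ∀ a b, dd (f a) (dd (f b) Q) y = if a = b then 2 else 0)
  (hfy : ∀ a, dd (f a) (dd y Q) y = 0)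

include hQ hy

theorem hess_bilin (u v : Fin (m + 1) → ℝ) :
    dd u (dd v Q) y = Matrix.toBilin' (A Q y) u v := by
  rw [dd_dd_eq hQ.sm u v hy, Matrix.toBilin'_apply, Finset.sum_comm]
  refine Finset.sum_congr rfl fun k _ => ?_
  rw [dd_eq, Finset.mul_sum]
  refine Finset.sum_congr rfl fun j _ => ?_
  simp only [A, Matrix.of_apply]
  ring

/-- `∇²Q(u, y) = dQ(u)` -/
theorem hess_y (u : Fin (m + 1) → ℝ) : dd u (dd y Q) y = dd u Q y := by
  rw [dd_dd_eq hQ.sm u y hy, dd_eq]
  simp only [dd_eq, Finset.mul_sum]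
  rw [Finset.sum_comm]
  refine Finset.sum_congr rfl fun j _ => ?_
  rw [← euler2 hQ j hy, Finset.mul_sum]
  refine Finset.sum_congr rfl fun k _ => ?_
  rw [pd2_symm hQ j k hy]
  ring

theorem hess_symm (u v : Fin (m + 1) → ℝ) : dd u (dd v Q) y = dd v (dd u Q) y :=
  dd_comm hQ.sm u v hy

omit hQ hy in
theorem hess_sub_sum (z v : Fin (m + 1) → ℝ) (c : Fin m → ℝ) (d : ℝ) :
    dd (z - d • y - ∑ a, c a • f a) (dd v Q) y
      = dd z (dd v Q) y - d * dd y (dd v Q) y - ∑ a, c a * dd (f a) (dd v Q) y := by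
  unfold Gen.dd
  rw [map_sub, map_sub, map_smul, map_sum]
  simp only [map_smul, smul_eq_mul]

include hf hfy

theorem eq_zero_of_ortho {z : Fin (m + 1) → ℝ} (hz : ∀ a, dd z (dd (f a) Q) y = 0)
    (hzy : dd z (dd y Q) y = 0) : z = 0 := by
  have hf0 : ∀ a, f a ≠ 0 := by
    intro a h0
    have h := hf a a
    rw [h0, if_pos rfl] at h
    unfold Gen.dd at h
    simp at h
  refine frame_zero (A_posDef hQ hy) hy (f := f) (fun a b hab => ?_) hf0 (fun a => ?_)
    (fun a => ?_) ?_
  · rw [← hess_bilin hQ hy, hf a b, if_neg hab]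
  · rw [← hess_bilin hQ hy, hfy a]
  · rw [← hess_bilin hQ hy, hz a]
  · rw [← hess_bilin hQ hy, hzy]

/-- expansion of a vector in the frame -/
theorem expand (z : Fin (m + 1) → ℝ) :
    z = (dd z Q y / dd y Q y) • y + ∑ a, ((1 / 2 : ℝ) * dd z (dd (f a) Q) y) • f a := by
  have hyy : dd y Q y ≠ 0 := by
    rw [dd_eq, euler1 hQ hy]
    have := hQ.pos y hy
    positivity
  have h : z - (dd z Q y / dd y Q y) • y - ∑ a, ((1 / 2 : ℝ) * dd z (dd (f a) Q) y) • f a = 0 := by
    apply eq_zero_of_ortho hQ hy hf hfy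
    · intro b
      rw [hess_sub_sum, hess_symm hQ hy y (f b), hfy b]
      simp only [hf]
      simp
      ring
    · rw [hess_sub_sum]
      simp only [hfy, mul_zero, Finset.sum_const_zero, sub_zero]
      rw [hess_y hQ hy z, hess_y hQ hy y]
      field_simp
      ring
  rw [sub_sub, sub_eq_zero] at h
  exact h

/-- a linear form which vanishes on the frame and on `y` vanishes -/
theorem lin_zero (L : (Fin (m + 1) → ℝ) →L[ℝ] ℝ) (h1 : L y = 0) (h2 : ∀ a, L (f a) = 0)
    (z : Fin (m + 1) → ℝ) : L z = 0 := by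
  rw [expand hQ hy hf hfy z]
  simp [h1, h2]

include hG hL

/-- the Berwald curvature vanishes where the Cartan form is rigid -/
theorem X_zero (hR : Rigid fun a b i => 1 / 4 * dd (f a) (dd (f b) (dd (f i) Q)) y)
    (u v w : Fin (m + 1) → ℝ) : X G y u v w = 0 := by
  have hsm := hQ.sm
  have s12 : ∀ u v w, X G y u v w = X G y v u w := fun u v w =>
    funext fun i => dd_comm (Sm.dd (hG i) w) u v hy
  have s23 : ∀ u v w, X G y u v w = X G y u w v := fun u v w =>
    funext fun i => dd_congr (fun z hz => dd_comm (hG i) v w hz) u hy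
  -- `X` is orthogonal to `y`
  have hXQ : ∀ u v w, dd (X G y u v w) Q y = 0 := by
    intro u v w
    rw [dd_eq, ← hL y hy u v w]
    exact Finset.sum_congr rfl fun i _ => by unfold X; ring
  -- `X` in the frame
  have hXe : ∀ u v w, X G y u v w =
      ∑ a, ((1 / 2 : ℝ) * dd (f a) (dd (X G y u v w) Q) y) • f a := by
    intro u v w
    have h := expand hQ hy hf hfy (X G y u v w)
    rw [hXQ, zero_div, zero_smul, zero_add] at h
    conv_lhs => rw [h]
    exact Finset.sum_congr rfl fun a _ => by rw [hess_symm hQ hy]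
  have hT : ∀ p q u v w, dd p (dd q (dd (X G y u v w) Q)) y =
      ∑ a, (1 / 2 : ℝ) * dd (f a) (dd (X G y u v w) Q) y * dd p (dd q (dd (f a) Q)) y := by
    intro p q u v w
    rw [dd_dd_dd_eq hsm p q _ hy]
    have e : ∀ k, X G y u v w k =
        ∑ a, (1 / 2 : ℝ) * dd (f a) (dd (X G y u v w) Q) y * f a k := by
      intro k
      have := congrFun (hXe u v w) k
      simpa [Finset.sum_apply] using this
    have e2 : ∀ k, X G y u v w k * dd p (dd q (pd k Q)) y =
        ∑ a, (1 / 2 : ℝ) * dd (f a) (dd (X G y u v w) Q) y * (f a k * dd p (dd q (pd k Q)) y) := by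
      intro k
      rw [e k, Finset.sum_mul]
      exact Finset.sum_congr rfl fun a _ => by ring
    simp only [e2]
    rw [Finset.sum_comm]
    refine Finset.sum_congr rfl fun a _ => ?_
    rw [← Finset.mul_sum, dd_dd_dd_eq hsm p q (f a) hy]
  have hb := hR (fun e a q d => dd (f d) (dd (X G y (f e) (f a) (f q)) Q) y)
    (fun i j k l => by simp only [s12 (f i) (f j) (f k)])
    (fun i j k l => by simp only [s23 (f i) (f j) (f k)])
    (fun i j k l => hess_X_symm hsm hG hL hy (f l) (f i) (f j) (f k))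
    (fun e a q p r => by
      have h := star hsm hG hL hy (f a) (f p) (f e) (f q) (f r)
      rw [hT, hT, hT, hT] at h
      simp only [← Finset.sum_sub_distrib, ← Finset.sum_add_distrib] at h
      have h2 : ∀ i, (1 / 4 * dd (f a) (dd (f p) (dd (f i) Q)) y *
            dd (f i) (dd (X G y (f e) (f q) (f r)) Q) y -
          1 / 4 * dd (f a) (dd (f r) (dd (f i) Q)) y *
            dd (f i) (dd (X G y (f e) (f q) (f p)) Q) y -
          1 / 4 * dd (f q) (dd (f p) (dd (f i) Q)) y *
            dd (f i) (dd (X G y (f e) (f a) (f r)) Q) y +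
          1 / 4 * dd (f q) (dd (f r) (dd (f i) Q)) y *
            dd (f i) (dd (X G y (f e) (f a) (f p)) Q) y) = 1 / 2 *
          (1 / 2 * dd (f i) (dd (X G y (f e) (f q) (f r)) Q) y *
            dd (f a) (dd (f p) (dd (f i) Q)) y -
          1 / 2 * dd (f i) (dd (X G y (f e) (f a) (f r)) Q) y *
            dd (f q) (dd (f p) (dd (f i) Q)) y -
          1 / 2 * dd (f i) (dd (X G y (f e) (f q) (f p)) Q) y *
            dd (f a) (dd (f r) (dd (f i) Q)) y +
          1 / 2 * dd (f i) (dd (X G y (f e) (f a) (f p)) Q) y *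
            dd (f q) (dd (f r) (dd (f i) Q)) y) := fun i => by ring
      simp only [h2, ← Finset.mul_sum, h, mul_zero])
  -- `X` vanishes on the frame
  have hX0 : ∀ e a q, X G y (f e) (f a) (f q) = 0 := by
    intro e a q
    rw [hXe (f e) (f a) (f q)]
    refine Finset.sum_eq_zero fun d _ => ?_
    have := congrFun (congrFun (congrFun (congrFun hb e) a) q) d
    simp only [Pi.zero_apply] at this
    rw [this, mul_zero, zero_smul]
  -- `X` vanishes if one argument is `y`
  have hXy : ∀ u v, X G y u v y = 0 := by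
    intro u v
    rw [hXe u v y]
    refine Finset.sum_eq_zero fun d _ => ?_
    rw [hess_X_symm hsm hG hL hy (f d) u v y, hess_symm hQ hy y, hess_y hQ hy, hXQ, mul_zero,
      zero_smul]
  have hlin : ∀ v w i, (∀ a, X G y (f a) v w i = 0) → ∀ u, X G y u v w i = 0 := by
    intro v w i h u
    refine lin_zero hQ hy hf hfy (fderiv ℝ (dd v (dd w (G i))) y) ?_ h u
    have := congrFun (hXy v w) i
    rw [← s23, ← s12] at this
    exact this
  have h1 : ∀ u a q, X G y u (f a) (f q) = 0 := fun u a q => funext fun i =>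
    hlin _ _ i (fun e => congrFun (hX0 e a q) i) u
  have h2 : ∀ u v q, X G y u v (f q) = 0 := fun u v q => funext fun i => by
    have := hlin u (f q) i (fun e => by rw [s12]; exact congrFun (h1 u e q) i) v
    rw [s12]; exact this
  funext i
  have := hlin v u i (fun e => by rw [s12, s23]; exact congrFun (h2 v u e) i) w
  rw [s23, s12, s23]
  exact this

end

end Pool.Agent.H792.Gen
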