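import Pool.Graph.R_seed8.R774.BW.Conf

/-!
# The algebraic identity for the Berwald curvature of a Landsberg metric

Everything takes place on one fibre. `dd u f` is the derivative of `f` in the constant direction `u`.
-/

set_option autoImplicit false

open scoped BigOperators ContDiff Topology
open Filter Set

namespace Pool.Agent.H792.Gen

open Pool.Agent.R774.BW

variable {n : ℕ}

/-- derivative in the constant direction `u` -/
noncomputable def dd (u : Fin n → ℝ) (f : (Fin n → ℝ) → ℝ) : (Fin n → ℝ) → ℝ :=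
  fun y => fderiv ℝ f y u

theorem dd_eq (u : Fin n → ℝ) (f : (Fin n → ℝ) → ℝ) (y : Fin n → ℝ) :
    dd u f y = ∑ k, u k * pd k f y := fderiv_eq_sum f y u

theorem Sm.dd {f : (Fin n → ℝ) → ℝ} (h : Sm f) (u : Fin n → ℝ) : Sm (dd u f) := by
  intro y hy
  have h1 : ContDiffAt ℝ ∞ (fderiv ℝ f) y := (h y hy).fderiv_right (m := ∞) (by simp)
  exact h1.clm_apply contDiffAt_const

theorem dd_mul {f g : (Fin n → ℝ) → ℝ} (hf : Sm f) (hg : Sm g) (u : Fin n → ℝ) {y : Fin n → ℝ}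
    (hy : y ≠ 0) : dd u (fun y => f y * g y) y = dd u f y * g y + f y * dd u g y := by
  unfold Gen.dd
  rw [fderiv_fun_mul (hf.diff hy) (hg.diff hy)]
  simp only [_root_.add_apply, _root_.smul_apply, smul_eq_mul]
  ring

theorem dd_sum {ι : Type*} {s : Finset ι} {f : ι → (Fin n → ℝ) → ℝ} (hf : ∀ i ∈ s, Sm (f i))
    (u : Fin n → ℝ) {y : Fin n → ℝ} (hy : y ≠ 0) :
    dd u (fun y => ∑ i ∈ s, f i y) y = ∑ i ∈ s, dd u (f i) y := by
  unfold Gen.dd
  rw [fderiv_fun_sum fun i hi => (hf i hi).diff hy]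
  simp

theorem dd_const_mul {f : (Fin n → ℝ) → ℝ} (hf : Sm f) (c : ℝ) (u : Fin n → ℝ) {y : Fin n → ℝ}
    (hy : y ≠ 0) : dd u (fun y => c * f y) y = c * dd u f y := by
  unfold Gen.dd
  rw [fderiv_const_mul (hf.diff hy)]; rfl

theorem dd_congr {f g : (Fin n → ℝ) → ℝ} (h : ∀ y, y ≠ 0 → f y = g y) (u : Fin n → ℝ)
    {y : Fin n → ℝ} (hy : y ≠ 0) : dd u f y = dd u g y := by
  rw [dd_eq, dd_eq]
  exact Finset.sum_congr rfl fun k _ => by rw [pd_congr h k hy]

theorem dd_comm {f : (Fin n → ℝ) → ℝ} (hf : Sm f) (u v : Fin n → ℝ) {y : Fin n → ℝ} (hy : y ≠ 0) :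
    dd u (dd v f) y = dd v (dd u f) y := by
  have hs : IsSymmSndFDerivAt ℝ f y := (hf y hy).isSymmSndFDerivAt (by
    simp only [minSmoothness_of_isRCLikeNormedField]
    exact WithTop.coe_le_coe.2 (by exact le_top))
  have hd : DifferentiableAt ℝ (fderiv ℝ f) y :=
    ((hf y hy).fderiv_right (m := ∞) (by simp)).differentiableAt (by simp)
  have e : ∀ a b : Fin n → ℝ, dd a (dd b f) y = fderiv ℝ (fderiv ℝ f) y a b := by
    intro a b
    unfold Gen.dd
    rw [fderiv_clm_apply hd (differentiableAt_const _)]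
    simp
  rw [e, e, hs]

theorem dd_single (k : Fin n) (f : (Fin n → ℝ) → ℝ) : dd (Pi.single k 1) f = pd k f := rfl

/-- linearity in the inner direction -/
theorem dd_dd_eq {f : (Fin n → ℝ) → ℝ} (hf : Sm f) (u v : Fin n → ℝ) {y : Fin n → ℝ}
    (hy : y ≠ 0) : dd u (dd v f) y = ∑ k, v k * dd u (pd k f) y := by
  have e : dd v f = fun y => ∑ k, v k * pd k f y := by
    funext z; exact dd_eq v f z
  rw [e, dd_sum (fun k _ => (sm_const (v k)).mul (hf.pd k)) u hy]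
  exact Finset.sum_congr rfl fun k _ => dd_const_mul (hf.pd k) (v k) u hy

theorem dd_dd_dd_eq {f : (Fin n → ℝ) → ℝ} (hf : Sm f) (u v w : Fin n → ℝ) {y : Fin n → ℝ}
    (hy : y ≠ 0) : dd u (dd v (dd w f)) y = ∑ k, w k * dd u (dd v (pd k f)) y := by
  have e : ∀ z, z ≠ 0 → dd v (dd w f) z = ∑ k, w k * dd v (pd k f) z := fun z hz =>
    dd_dd_eq hf v w hz
  rw [dd_congr e u hy, dd_sum (fun k _ => (sm_const (w k)).mul (Sm.dd (hf.pd k) v)) u hy]
  exact Finset.sum_congr rfl fun k _ => dd_const_mul (Sm.dd (hf.pd k) v) (w k) u hy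

theorem dd3_eq {f : (Fin n → ℝ) → ℝ} (hf : Sm f) (u v w : Fin n → ℝ) {y : Fin n → ℝ}
    (hy : y ≠ 0) : dd u (dd v (dd w f)) y =
      ∑ i, ∑ j, ∑ k, u i * v j * w k * pd i (pd j (pd k f)) y := by
  rw [dd_eq]
  refine Finset.sum_congr rfl fun i _ => ?_
  rw [← dd_single, dd_dd_dd_eq hf _ v w hy]
  have e : ∀ k, dd (Pi.single i 1) (dd v (pd k f)) y = ∑ j, v j * pd i (pd j (pd k f)) y :=
    fun k => dd_dd_eq (hf.pd k) _ v hy
  simp only [e, Finset.mul_sum]
  rw [Finset.sum_comm]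
  exact Finset.sum_congr rfl fun j _ => Finset.sum_congr rfl fun k _ => by ring

/-- exchange the first and the third of the directions -/
theorem dd_swap13 {f : (Fin n → ℝ) → ℝ} (hf : Sm f) (p j k : Fin n → ℝ) {y : Fin n → ℝ}
    (hy : y ≠ 0) : dd p (dd j (dd k f)) y = dd k (dd j (dd p f)) y := by
  rw [dd_comm (Sm.dd hf k) p j hy, dd_congr (fun z hz => dd_comm hf p k hz) j hy,
    dd_comm (Sm.dd hf p) j k hy]

theorem dd_swap14 {f : (Fin n → ℝ) → ℝ} (hf : Sm f) (p j k l : Fin n → ℝ) {y : Fin n → ℝ}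
    (hy : y ≠ 0) : dd p (dd j (dd k (dd l f))) y = dd l (dd j (dd k (dd p f))) y := by
  rw [dd_swap13 (Sm.dd hf l) p j k hy, dd_congr (fun z hz => dd_congr (fun z hz =>
    dd_comm hf p l hz) j hz) k hy, dd_swap13 (Sm.dd hf p) k j l hy]

section

variable {Q : (Fin n → ℝ) → ℝ} (hQ : Sm Q) {G : Fin n → (Fin n → ℝ) → ℝ} (hG : ∀ i, Sm (G i))
  (hL : ∀ y, y ≠ 0 → ∀ u v w : Fin n → ℝ, ∑ i, pd i Q y * dd u (dd v (dd w (G i))) y = 0)

/-- the vector of third derivatives of `G` -/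
noncomputable def X (G : Fin n → (Fin n → ℝ) → ℝ) (y u v w : Fin n → ℝ) : Fin n → ℝ :=
  fun i => dd u (dd v (dd w (G i))) y

include hQ hG hL

/-- `∇²Q(z, X(u,v,w)) = - Σ Q_i ∂⁴G^i(z,u,v,w)` -/
theorem hess_X {y : Fin n → ℝ} (hy : y ≠ 0) (z u v w : Fin n → ℝ) :
    dd z (dd (X G y u v w) Q) y = - ∑ i, pd i Q y * dd z (dd u (dd v (dd w (G i)))) y := by
  have h1 : dd z (fun y => ∑ i, pd i Q y * dd u (dd v (dd w (G i))) y) y = 0 := by
    rw [dd_congr (g := fun _ => (0:ℝ)) (fun t ht => hL t ht u v w) z hy]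
    unfold Gen.dd
    simp
  rw [dd_sum (fun i _ => (hQ.pd i).mul (Sm.dd (Sm.dd (Sm.dd (hG i) w) v) u)) z hy] at h1
  have h2 : ∀ i, dd z (fun y => pd i Q y * dd u (dd v (dd w (G i))) y) y =
      dd z (pd i Q) y * dd u (dd v (dd w (G i))) y + pd i Q y *
        dd z (dd u (dd v (dd w (G i)))) y := fun i =>
    dd_mul (hQ.pd i) (Sm.dd (Sm.dd (Sm.dd (hG i) w) v) u) z hy
  simp only [h2, Finset.sum_add_distrib] at h1
  rw [dd_dd_eq hQ z _ hy, eq_neg_iff_add_eq_zero, ← h1]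
  congr 1
  exact Finset.sum_congr rfl fun i _ => by unfold X; ring

/-- the lowered Berwald curvature is symmetric in its last argument -/
theorem hess_X_symm {y : Fin n → ℝ} (hy : y ≠ 0) (z u v w : Fin n → ℝ) :
    dd z (dd (X G y u v w) Q) y = dd w (dd (X G y u v z) Q) y := by
  rw [hess_X hQ hG hL hy, hess_X hQ hG hL hy]
  congr 1
  exact Finset.sum_congr rfl fun i _ => by rw [dd_swap14 (hG i) z u v w hy]

/-- derivative of the previous identity -/
theorem aux_star {y : Fin n → ℝ} (hy : y ≠ 0) (p m j k l : Fin n → ℝ) :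
    dd p (dd m (dd (X G y j k l) Q)) y + ∑ i, dd m (pd i Q) y * dd p (dd j (dd k (dd l (G i)))) y
      = dd p (dd l (dd (X G y j k m) Q)) y
        + ∑ i, dd l (pd i Q) y * dd p (dd j (dd k (dd m (G i)))) y := by
  have key : ∀ m l : Fin n → ℝ, dd p (fun y => ∑ i, dd m (pd i Q) y *
      dd j (dd k (dd l (G i))) y) y = dd p (dd m (dd (X G y j k l) Q)) y +
        ∑ i, dd m (pd i Q) y * dd p (dd j (dd k (dd l (G i)))) y := by
    intro m l
    rw [dd_sum (fun i _ => (Sm.dd (hQ.pd i) m).mul (Sm.dd (Sm.dd (Sm.dd (hG i) l) k) j)) p hy,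
      dd_dd_dd_eq hQ p m _ hy, ← Finset.sum_add_distrib]
    refine Finset.sum_congr rfl fun i _ => ?_
    rw [dd_mul (Sm.dd (hQ.pd i) m) (Sm.dd (Sm.dd (Sm.dd (hG i) l) k) j) p hy]
    unfold X
    ring
  rw [← key m l, ← key l m]
  refine dd_congr (fun z hz => ?_) p hy
  have h := hess_X_symm hQ hG hL hz m j k l
  rw [dd_dd_eq hQ m _ hz, dd_dd_eq hQ l _ hz] at h
  unfold X at h
  rw [show (∑ i, dd m (pd i Q) z * dd j (dd k (dd l (G i))) z) =
    ∑ i, dd j (dd k (dd l (G i))) z * dd m (pd i Q) z from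
      Finset.sum_congr rfl fun i _ => mul_comm _ _, h]
  exact Finset.sum_congr rfl fun i _ => mul_comm _ _

/-- the algebraic identity: the third derivative of `Q` and the Berwald curvature -/
theorem star {y : Fin n → ℝ} (hy : y ≠ 0) (p m j k l : Fin n → ℝ) :
    dd p (dd m (dd (X G y j k l) Q)) y - dd k (dd m (dd (X G y j p l) Q)) y
      - dd p (dd l (dd (X G y j k m) Q)) y + dd k (dd l (dd (X G y j p m) Q)) y = 0 := by
  have h1 := aux_star hQ hG hL hy p m j k l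
  have h2 := aux_star hQ hG hL hy k m j p l
  have e1 : ∀ (a l : Fin n → ℝ) , ∑ i, dd a (pd i Q) y * dd p (dd j (dd k (dd l (G i)))) y =
      ∑ i, dd a (pd i Q) y * dd k (dd j (dd p (dd l (G i)))) y := fun a l =>
    Finset.sum_congr rfl fun i _ => by rw [dd_swap13 (Sm.dd (hG i) l) p j k hy]
  rw [e1 m l, e1 l m] at h1
  linarith

end

end Pool.Agent.H792.Gen
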